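import Pool.Agent.H181R5.NLT.Stmts

/-! Task Red: reachability on subgraphs of the transitive tournament reduces to the host. -/

set_option autoImplicit false

namespace Pool.Agent.H568R3.NLT

open Finset Relation Pool.Agent.H181R5.NLH Pool.Agent.H181R5.NLT

section Red

variable {V : Type} {m : ℕ} (len : Fin m → Fin m → ℕ) (p : Fin m → Fin m → ℕ → V)

/-- `e` is one of the arcs of the path for the pair `q`. -/
def IsOn (e : V × V) (q : Fin m × Fin m) : Prop :=
  q.1 < q.2 ∧ ∃ t, t < len q.1 q.2 ∧ e = (p q.1 q.2 t, p q.1 q.2 (t + 1))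

open Classical in
/-- The pair to which an arc belongs. -/
noncomputable def live (e : V × V) : Option (Fin m × Fin m) :=
  if h : ∃ q, IsOn len p e q then some h.choose else none

theorem live_spec {e : V × V} {q} (h : live len p e = some q) : IsOn len p e q := by
  unfold live at h
  split_ifs at h with h'
  rw [Option.some.injEq] at h
  rw [← h]
  exact h'.choose_spec

/-- the properties of the subdivision which are used -/
structure Sub (u : Fin m → V) : Prop where
  inj : Function.Injective u
  ends : ∀ i j, i < j → 1 ≤ len i j ∧ p i j 0 = u i ∧ p i j (len i j) = u j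
  br : ∀ i j k, i < j → ∀ t, 0 < t → t < len i j → p i j t ≠ u k
  int : ∀ i j i' j' t t', i < j → i' < j' → 0 < t → t < len i j → 0 < t' → t' < len i' j' →
      p i j t = p i' j' t' → i = i' ∧ j = j' ∧ t = t'

variable {len p}

theorem isOn_unique {u : Fin m → V} (hS : Sub len p u) {e : V × V} {q q' : Fin m × Fin m}
    (h : IsOn len p e q) (h' : IsOn len p e q') : q' = q := by
  obtain ⟨i, j⟩ := q
  obtain ⟨i', j'⟩ := q'
  obtain ⟨hij, t, ht, he⟩ := h
  obtain ⟨hij', t', ht', he'⟩ := h'
  simp only at hij hij' ht ht' he he'
  rw [he, Prod.mk.injEq] at he'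
  obtain ⟨h1, h2⟩ := he'
  obtain ⟨a1, a2, a3⟩ := hS.ends i j hij
  obtain ⟨b1, b2, b3⟩ := hS.ends i' j' hij'
  rcases Nat.eq_zero_or_pos t with rfl | h0
  · rcases Nat.eq_zero_or_pos t' with rfl | h0'
    · rw [a2, b2] at h1
      have hi : i = i' := hS.inj h1
      subst hi
      have hj : j = j' := by
        rcases Nat.lt_or_ge 1 (len i j) with hl | hl
        · rcases Nat.lt_or_ge 1 (len i j') with hl' | hl'
          · exact (hS.int i j i j' _ _ hij hij' (by omega) hl (by omega) hl' h2).2.1
          · have hl1 : len i j' = 0 + 1 := by omega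
            rw [← hl1, b3] at h2
            rw [hl1] at h2
            exact absurd h2 (hS.br i j j' hij _ (by omega) hl)
        · have hl1 : len i j = 0 + 1 := by omega
          rw [← hl1, a3] at h2
          rw [hl1] at h2
          rcases Nat.lt_or_ge 1 (len i j') with hl' | hl'
          · exact absurd h2.symm (hS.br i j' j hij' _ (by omega) hl')
          · have hl2 : len i j' = 0 + 1 := by omega
            rw [← hl2, b3] at h2
            exact hS.inj h2
      rw [hj]
    · rw [a2] at h1
      exact absurd h1.symm (hS.br i' j' i hij' t' h0' ht')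
  · rcases Nat.eq_zero_or_pos t' with rfl | h0'
    · rw [b2] at h1
      exact absurd h1 (hS.br i j i' hij t h0 ht)
    · obtain ⟨c1, c2, _⟩ := hS.int i j i' j' t t' hij hij' h0 ht h0' ht' h1
      rw [c1, c2]

theorem live_of {u : Fin m → V} (hS : Sub len p u) {e : V × V} {q : Fin m × Fin m}
    (h : IsOn len p e q) : live len p e = some q := by
  have hex : ∃ q, IsOn len p e q := ⟨q, h⟩
  unfold live
  rw [dif_pos hex]
  congr 1
  exact isOn_unique hS h hex.choose_spec

variable (len p)

/-- The arc set on the host. -/
noncomputable def lift (x : Fin m × Fin m → Bool) (e : V × V) : Bool :=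
  match live len p e with
  | none => false
  | some q => x q

variable {len p}

theorem lift_iff {u : Fin m → V} (hS : Sub len p u) (x : Fin m × Fin m → Bool) (e : V × V) :
    lift len p x e = true ↔ ∃ q, IsOn len p e q ∧ x q = true := by
  unfold lift
  constructor
  · intro h
    cases hl : live len p e with
    | none => rw [hl] at h; exact absurd h (by simp)
    | some q => rw [hl] at h; exact ⟨q, live_spec len p hl, h⟩
  · rintro ⟨q, hq, hx⟩
    rw [live_of hS hq]
    exact hx

theorem reach_lift {u : Fin m → V} (hS : Sub len p u) (x : Fin m × Fin m → Bool)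
    (hx : ∀ e, x e = true → e.1 < e.2)
    (s t : Fin m) : Reach (lift len p x) (u s) (u t) ↔ Reach x s t := by
  constructor
  · intro h
    have key : ∀ b, Reach (lift len p x) (u s) b → (∃ j, b = u j ∧ Reach x s j) ∨
        (∃ i j t, i < j ∧ 0 < t ∧ t < len i j ∧ b = p i j t ∧ Reach x s i) := by
      intro b hb
      induction hb with
      | refl => exact Or.inl ⟨s, rfl, ReflTransGen.refl⟩
      | @tail b c _ hbc ih =>
        obtain ⟨⟨i, j⟩, ⟨hij, t', ht', he⟩, hxq⟩ := (lift_iff hS x (b, c)).1 hbc
        simp only at hij ht' he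
        rw [Prod.mk.injEq] at he
        obtain ⟨e1, e2⟩ := he
        obtain ⟨a1, a2, a3⟩ := hS.ends i j hij
        have hsi : Reach x s i := by
          rcases Nat.eq_zero_or_pos t' with rfl | h0
          · rcases ih with ⟨j0, hj0, hr⟩ | ⟨i1, j1, t1, g1, g2, g3, g4, g5⟩
            · rw [e1, a2] at hj0
              rw [hS.inj hj0]
              exact hr
            · rw [e1, a2] at g4
              exact absurd g4.symm (hS.br i1 j1 i g1 t1 g2 g3)
          · rcases ih with ⟨j0, hj0, hr⟩ | ⟨i1, j1, t1, g1, g2, g3, g4, g5⟩
            · rw [e1] at hj0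
              exact absurd hj0 (hS.br i j j0 hij t' h0 ht')
            · rw [e1] at g4
              rw [(hS.int i j i1 j1 t' t1 hij g1 h0 ht' g2 g3 g4).1]
              exact g5
        rcases Nat.lt_or_ge (t' + 1) (len i j) with hl | hl
        · right
          exact ⟨i, j, t' + 1, hij, by omega, hl, e2, hsi⟩
        · left
          have hl1 : t' + 1 = len i j := by omega
          refine ⟨j, by rw [e2, hl1, a3], hsi.tail hxq⟩
    rcases key _ h with ⟨j, hj, hr⟩ | ⟨i1, j1, t1, g1, g2, g3, g4, g5⟩
    · rw [hS.inj hj]; exact hr
    · exact absurd g4.symm (hS.br i1 j1 t g1 t1 g2 g3)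
  · intro h
    induction h with
    | refl => exact ReflTransGen.refl
    | @tail b c _ hbc ih =>
      have hlt : b < c := hx _ hbc
      obtain ⟨a1, a2, a3⟩ := hS.ends b c hlt
      have hp : ∀ n, n ≤ len b c → Reach (lift len p x) (u s) (p b c n) := by
        intro n
        induction n with
        | zero => intro _; rw [a2]; exact ih
        | succ n ihn =>
          intro hn
          refine (ihn (by omega)).tail ?_
          exact (lift_iff hS x _).2 ⟨(b, c), ⟨hlt, n, by simpa using hn, rfl⟩, hbc⟩
      have := hp (len b c) le_rfl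
      rw [a3] at this
      exact this

variable (len p)

/-- The program on `m` vertices obtained from a program on the host. -/
noncomputable def red {Q : Type} (P : BP (V × V) Q) (d : Fin m × Fin m) :
    BP (Fin m × Fin m) Q where
  start := P.start
  var := fun q => match live len p (P.var q) with
    | none => d
    | some q' => q'
  next := fun q β => match live len p (P.var q) with
    | none => P.next q false
    | some _ => P.next q β
  acc := P.acc

theorem red_step {Q : Type} (P : BP (V × V) Q) (d : Fin m × Fin m) (x : Fin m × Fin m → Bool) :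
    (red len p P d).step x = P.step (lift len p x) := by
  funext q
  unfold BP.step red lift
  dsimp only
  cases hl : live len p (P.var q) with
  | none => rfl
  | some q' => rfl

theorem red_accepts {Q : Type} (P : BP (V × V) Q) (d : Fin m × Fin m)
    (x : Fin m × Fin m → Bool) :
    (red len p P d).Accepts x ↔ P.Accepts (lift len p x) := by
  unfold BP.Accepts
  rw [red_step]
  rfl

end Red

theorem taskRed : TaskRed := by
  intro V _ _ H m N hsub he
  obtain ⟨u, len, p, hinj, _, hends, harc, _, hbr, hint⟩ := hsub
  have hS : Sub len p u := ⟨hinj, hends, hbr, hint⟩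
  intro s t
  obtain ⟨Q, hQ, P, hcard, hP⟩ := he (u s) (u t)
  refine ⟨Q, hQ, red len p P (s, t), hcard, fun x hx => ?_⟩
  have hx' : ∀ e, x e = true → e.1 < e.2 := by
    intro e hxe
    have := hx e hxe
    rw [mem_filter] at this
    exact this.2
  rw [red_accepts, hP (lift len p x), reach_lift hS x hx']
  intro e hxe
  obtain ⟨⟨i, j⟩, ⟨hij, t', ht', hee⟩, _⟩ := (lift_iff hS x e).1 hxe
  rw [hee]
  exact harc i j hij t' ht'

end Pool.Agent.H568R3.NLT
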